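import Pool.Agent.V5helper73.SZ.StmC

/-! # Project SZ: the coefficients of the fifth root transform -/

set_option autoImplicit false
open Complex Metric Set Filter Topology MeasureTheory

namespace V5helper37.SZ

open V5helper73.SZ

noncomputable def GG (f : ℂ → ℂ) (w : ℂ) : ℝ := ‖deriv f w‖ * ‖f w‖ ^ (-(4 / 5) : ℝ)

lemma fne {f : ℂ → ℂ} (hf : InS f) {w : ℂ} (hw : w ∈ ball (0:ℂ) 1) (h0 : w ≠ 0) : f w ≠ 0 := by
  intro h
  apply h0
  apply hf.inj hw (mem_ball_self one_pos)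
  rw [h, hf.zero]

lemma cont_deriv {F : ℂ → ℂ} (hF : DifferentiableOn ℂ F (ball 0 1)) : ContinuousOn (deriv F) (ball 0 1) :=
  (hF.deriv isOpen_ball).continuousOn

lemma circ_mem {r : ℝ} (h0 : 0 < r) (h1 : r < 1) (θ : ℝ) : circleMap 0 r θ ∈ ball (0:ℂ) 1 := by
  rw [mem_ball_zero_iff, norm_circleMap_zero, abs_of_pos h0]
  exact h1

lemma GG_cont {f : ℂ → ℂ} (hf : InS f) {r : ℝ} (h0 : 0 < r) (h1 : r < 1) :
    Continuous (fun θ : ℝ => GG f (circleMap 0 r θ)) := by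
  unfold GG
  have hc : Continuous (fun θ : ℝ => circleMap (0:ℂ) r θ) := continuous_circleMap 0 r
  have hA : Continuous (fun θ : ℝ => deriv f (circleMap 0 r θ)) :=
    (cont_deriv hf.diff).comp_continuous hc (circ_mem h0 h1)
  have hB : Continuous (fun θ : ℝ => f (circleMap 0 r θ)) :=
    hf.diff.continuousOn.comp_continuous hc (circ_mem h0 h1)
  refine hA.norm.mul (hB.norm.rpow_const ?_)
  intro θ
  left
  rw [norm_ne_zero_iff]
  apply fne hf (circ_mem h0 h1 θ)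
  rw [← norm_ne_zero_iff, norm_circleMap_zero, abs_of_pos h0]
  exact h0.ne'

lemma bound {f F : ℂ → ℂ} (hf : InS f) (hF : DifferentiableOn ℂ F (ball 0 1))
    (hFf : ∀ z ∈ ball (0:ℂ) 1, F z ^ 5 = f (z ^ 5)) {z : ℂ} (hz : z ∈ ball (0:ℂ) 1) (h0 : z ≠ 0) :
    ‖deriv F z‖ ≤ GG f (z ^ 5) := by
  have hz1 : ‖z‖ < 1 := by simpa using hz
  have hz5 : z ^ 5 ∈ ball (0:ℂ) 1 := by
    rw [mem_ball_zero_iff, norm_pow]
    exact pow_lt_one₀ (norm_nonneg _) hz1 (by norm_num)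
  have hz50 : z ^ 5 ≠ 0 := pow_ne_zero _ h0
  have hfz : f (z ^ 5) ≠ 0 := fne hf hz5 hz50
  have hFz : F z ≠ 0 := by
    intro h
    apply hfz
    rw [← hFf z hz, h]
    norm_num
  have hdF : HasDerivAt F (deriv F z) z := (hF.differentiableAt (isOpen_ball.mem_nhds hz)).hasDerivAt
  have hdf : HasDerivAt f (deriv f (z ^ 5)) (z ^ 5) := (hf.diff.differentiableAt (isOpen_ball.mem_nhds hz5)).hasDerivAt
  have h1 : HasDerivAt (fun w => F w ^ 5) (((5:ℕ) : ℂ) * F z ^ (5 - 1) * deriv F z) z := hdF.pow 5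
  have h2 : HasDerivAt (fun w => f (w ^ 5)) (deriv f (z ^ 5) * (((5:ℕ) : ℂ) * z ^ (5 - 1))) z :=
    HasDerivAt.comp z hdf (hasDerivAt_pow 5 z)
  have h3 : (fun w => F w ^ 5) =ᶠ[𝓝 z] (fun w => f (w ^ 5)) := by
    filter_upwards [isOpen_ball.mem_nhds hz] with w hw using hFf w hw
  have h4 := (h1.congr_of_eventuallyEq h3.symm).unique h2
  have h5 : F z ^ 4 * deriv F z = deriv f (z ^ 5) * z ^ 4 := by
    have : (5:ℂ) * (F z ^ 4 * deriv F z) = 5 * (deriv f (z ^ 5) * z ^ 4) := by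
      norm_num at h4
      linear_combination h4
    exact mul_left_cancel₀ (by norm_num) this
  have h6 : ‖F z‖ ^ 4 * ‖deriv F z‖ = ‖deriv f (z ^ 5)‖ * ‖z‖ ^ 4 := by
    have := congrArg norm h5
    simpa [norm_mul, norm_pow] using this
  have h7 : ‖f (z ^ 5)‖ = ‖F z‖ ^ 5 := by
    rw [← hFf z hz, norm_pow]
  have h8 : 0 < ‖F z‖ := norm_pos_iff.mpr hFz
  have h9 : ‖f (z ^ 5)‖ ^ (-(4 / 5) : ℝ) = (‖F z‖ ^ 4)⁻¹ := by
    rw [h7, ← Real.rpow_natCast, ← Real.rpow_mul h8.le, ← Real.rpow_natCast ‖F z‖ 4, ← Real.rpow_neg h8.le]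
    norm_num
  unfold GG
  rw [h9, ← div_eq_mul_inv, le_div_iff₀ (pow_pos h8 4), mul_comm, h6]
  have h10 : ‖z‖ ^ 4 ≤ 1 := pow_le_one₀ (norm_nonneg _) hz1.le
  calc ‖deriv f (z ^ 5)‖ * ‖z‖ ^ 4 ≤ ‖deriv f (z ^ 5)‖ * 1 := mul_le_mul_of_nonneg_left h10 (norm_nonneg _)
    _ = _ := mul_one _

lemma circ_pow (ρ θ : ℝ) : circleMap 0 ρ θ ^ 5 = circleMap 0 (ρ ^ 5) (5 * θ) := by
  simp only [circleMap, zero_add, mul_pow, ← Complex.exp_nat_mul]
  push_cast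
  ring_nf

lemma mean5 {f : ℂ → ℂ} (hf : InS f) {r : ℝ} (h0 : 0 < r) (h1 : r < 1) :
    ∫ θ in (0:ℝ)..(2 * Real.pi), GG f (circleMap 0 r (5 * θ)) = ∫ θ in (0:ℝ)..(2 * Real.pi), GG f (circleMap 0 r θ) := by
  have hc := GG_cont hf h0 h1
  rw [intervalIntegral.integral_comp_mul_left (fun θ => GG f (circleMap 0 r θ)) (by norm_num : (5:ℝ) ≠ 0)]
  have hp : Function.Periodic (fun θ : ℝ => GG f (circleMap 0 r θ)) (2 * Real.pi) := by
    intro θ
    simp only [periodic_circleMap 0 r θ]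
  have h2 := hp.intervalIntegral_add_zsmul_eq 5 0 (fun a b => hc.intervalIntegrable a b)
  have e1 : (0:ℝ) + (5:ℤ) • (2 * Real.pi) = 5 * (2 * Real.pi) := by
    simp
  rw [e1, zero_add] at h2
  rw [mul_zero, h2]
  simp

theorem t_COEF (h : S_FIN2) (hc : V5helper73.GC.S_CAU) : S_COEF := by
  obtain ⟨K, hK, hmean⟩ := h
  refine ⟨4 * K, ?_⟩
  intro f hf F hF hFf n hn
  have hn0 : (0:ℝ) < n := by exact_mod_cast hn
  have hn1 : (1:ℝ) ≤ n := by exact_mod_cast hn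
  set r : ℝ := 1 - 1 / (2 * n) with hr
  have hr1 : r < 1 := by
    have : 0 < 1 / (2 * (n:ℝ)) := by positivity
    linarith
  have hr2 : 1 / 2 ≤ r := by
    have : 1 / (2 * (n:ℝ)) ≤ 1 / 2 := by
      apply one_div_le_one_div_of_le (by norm_num)
      linarith
    linarith
  have hr0 : 0 < r := by linarith
  set ρ : ℝ := r ^ (1 / 5 : ℝ) with hρ
  have hρ0 : 0 < ρ := Real.rpow_pos_of_pos hr0 _
  have hρ5 : ρ ^ 5 = r := by
    rw [hρ, ← Real.rpow_natCast, ← Real.rpow_mul hr0.le]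
    norm_num
  have hρ1 : ρ < 1 := Real.rpow_lt_one hr0.le hr1 (by norm_num)
  have h1 := hc (deriv F) (hF.deriv isOpen_ball) (5 * n) ρ hρ0 hρ1
  have hcF : Continuous (fun θ : ℝ => ‖deriv F (circleMap 0 ρ θ)‖) :=
    ((cont_deriv hF).comp_continuous (continuous_circleMap 0 ρ) (circ_mem hρ0 hρ1)).norm
  have hcG : Continuous (fun θ : ℝ => GG f (circleMap 0 r (5 * θ))) :=
    (GG_cont hf hr0 hr1).comp (continuous_const.mul continuous_id)
  have h2 : ∫ θ in (0:ℝ)..(2 * Real.pi), ‖deriv F (circleMap 0 ρ θ)‖ ≤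
      ∫ θ in (0:ℝ)..(2 * Real.pi), GG f (circleMap 0 r (5 * θ)) := by
    apply intervalIntegral.integral_mono_on (by positivity) (hcF.intervalIntegrable _ _) (hcG.intervalIntegrable _ _)
    intro θ _
    have h3 := bound hf hF hFf (circ_mem hρ0 hρ1 θ) (by
      rw [← norm_ne_zero_iff, norm_circleMap_zero, abs_of_pos hρ0]
      exact hρ0.ne')
    rwa [circ_pow, hρ5] at h3
  rw [mean5 hf hr0 hr1] at h2
  have h3 := hmean f hf r hr2 hr1
  have h4 : ‖(((5 * n).factorial : ℂ)⁻¹ * iteratedDeriv (5 * n) (deriv F) 0)‖ * ρ ^ (5 * n) ≤ K * (1 - r) ^ (-(2 / 5) : ℝ) := by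
    refine h1.trans (le_trans ?_ h3)
    apply mul_le_mul_of_nonneg_left h2
    positivity
  have h5 : 1 / 2 ≤ ρ ^ (5 * n) := by
    rw [pow_mul, hρ5]
    have h6 := one_add_mul_le_pow (a := -(1 / (2 * (n:ℝ)))) (by
      have : 1 / (2 * (n:ℝ)) ≤ 1 / 2 := by
        apply one_div_le_one_div_of_le (by norm_num)
        linarith
      linarith) n
    have h7 : 1 + (n:ℝ) * -(1 / (2 * (n:ℝ))) = 1 / 2 := by
      field_simp
      norm_num
    have h8 : 1 + -(1 / (2 * (n:ℝ))) = r := by rw [hr]; ring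
    rw [h7, h8] at h6
    exact h6
  have h6 : (1 - r) ^ (-(2 / 5) : ℝ) ≤ 2 * (n:ℝ) ^ (2 / 5 : ℝ) := by
    have e1 : 1 - r = (2 * (n:ℝ))⁻¹ := by rw [hr]; field_simp; ring
    rw [e1, Real.inv_rpow (by positivity), Real.rpow_neg (by positivity), inv_inv,
      Real.mul_rpow (by norm_num) hn0.le]
    apply mul_le_mul_of_nonneg_right _ (Real.rpow_nonneg hn0.le _)
    calc (2:ℝ) ^ (2 / 5 : ℝ) ≤ 2 ^ (1:ℝ) := Real.rpow_le_rpow_of_exponent_le (by norm_num) (by norm_num)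
      _ = 2 := Real.rpow_one 2
  set X : ℝ := ‖(((5 * n).factorial : ℂ)⁻¹ * iteratedDeriv (5 * n) (deriv F) 0)‖ with hX
  have hX0 : 0 ≤ X := norm_nonneg _
  have h7 : X ≤ 4 * K * (n:ℝ) ^ (2 / 5 : ℝ) := by
    have h8 : X * (1 / 2) ≤ K * (2 * (n:ℝ) ^ (2 / 5 : ℝ)) :=
      (mul_le_mul_of_nonneg_left h5 hX0).trans (h4.trans (mul_le_mul_of_nonneg_left h6 hK))
    linarith
  have h8 : ‖(((5 * n + 1).factorial : ℂ)⁻¹ * iteratedDeriv (5 * n + 1) F 0)‖ = X / (5 * n + 1) := by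
    rw [hX, iteratedDeriv_succ', Nat.factorial_succ]
    push_cast
    rw [mul_inv, mul_assoc, norm_mul, norm_inv]
    have : ‖(5 * (n:ℂ) + 1)‖ = 5 * n + 1 := by
      have : (5 * (n:ℂ) + 1) = ((5 * n + 1 : ℝ) : ℂ) := by push_cast; ring
      rw [this, Complex.norm_real, Real.norm_eq_abs, abs_of_pos (by positivity)]
    rw [this, div_eq_inv_mul]
  rw [h8, div_le_iff₀ (by positivity)]
  have h9 : (n:ℝ) ^ (-(3 / 5) : ℝ) * n = (n:ℝ) ^ (2 / 5 : ℝ) := by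
    have : (n:ℝ) ^ (-(3 / 5) : ℝ) * (n:ℝ) ^ (1:ℝ) = (n:ℝ) ^ (2 / 5 : ℝ) := by
      rw [← Real.rpow_add hn0]
      norm_num
    rwa [Real.rpow_one] at this
  have h10 : 0 ≤ (n:ℝ) ^ (-(3 / 5) : ℝ) := Real.rpow_nonneg hn0.le _
  calc X ≤ 4 * K * (n:ℝ) ^ (2 / 5 : ℝ) := h7
    _ = 4 * K * ((n:ℝ) ^ (-(3 / 5) : ℝ) * n) := by rw [h9]
    _ ≤ 4 * K * (n:ℝ) ^ (-(3 / 5) : ℝ) * (5 * n + 1) := by
        rw [← mul_assoc]
        apply mul_le_mul_of_nonneg_left _ (by positivity)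
        linarith

end V5helper37.SZ
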